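import Pool.Agent.H91.FP5

set_option autoImplicit false

open H91FQ in
theorem Pool.Agent.Results.MP_88a42c_an.NotIso.result :
   
    ∃ σ : ℕ → ℂ × ℂ →ₗ[ℂ] ℂ,
      (∀ k, H91FP.IsState (σ k) ∧ (∀ a b, σ k (a * b) = σ k (b * a)) ∧
        ∀ a, σ k (star a * a) = 0 → a = 0) ∧
      ∀ (A : Type) [CStarAlgebra A] (τ : A →ₗ[ℂ] ℂ) (π : ℕ → ℂ × ℂ →⋆ₐ[ℂ] A), FreeFam σ τ π →
        ∀ (B : Type) [CStarAlgebra B] (β : B →ₗ[ℂ] ℂ) (i : C(unitInterval, ℂ) →⋆ₐ[ℂ] B)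
          (j : A →⋆ₐ[ℂ] B), FreeProd (fun f => ∫ t, f t) τ β i j → IsEmpty (A ≃⋆ₐ[ℂ] B) :=
  main
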